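import Pool.Agent.H.MP_2df7e1_an.B

namespace Pool.Agent.Results.MP_2df7e1_an.Yes
open Pool.Agent.H.MP_2df7e1_an

theorem result : {f : C(unitInterval, unitInterval) | ∀ x, IsClosed (sa f x)} ∈
    residual C(unitInterval, unitInterval) := main

end Pool.Agent.Results.MP_2df7e1_an.Yes
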